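import Pool.Agent.H5.OR.Targets

/-!
# Isomorphism problem for one-relator groups: a fixed vertex (row LS of org_modules)
-/

set_option autoImplicit false

open scoped Classical

namespace Pool.Agent.H39.OR.LS

open ORg

theorem exists_pow {F : Type} [Group F] (w : F) (K : Subgroup F) (hK : K ≤ Subgroup.zpowers w) :
    ∃ d : ℕ, K = Subgroup.zpowers (w ^ d) := by
  have h1 : IsCyclic K := Subgroup.isCyclic_of_le hK
  rw [Subgroup.isCyclic_iff_exists_zpowers_eq_top] at h1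
  obtain ⟨g, hg⟩ := h1
  have h2 : g ∈ K := by
    rw [← hg]
    exact Subgroup.mem_zpowers g
  obtain ⟨k, hk⟩ := Subgroup.mem_zpowers_iff.1 (hK h2)
  refine ⟨k.natAbs, ?_⟩
  rw [← hg, ← hk]
  rcases Int.natAbs_eq k with h | h
  · rw [← zpow_natCast, ← h]
  · have h3 : w ^ k = (w ^ k.natAbs)⁻¹ := by
      rw [← zpow_natCast, ← zpow_neg, ← h]
    rw [h3, Subgroup.zpowers_inv]

theorem aux {F V : Type} [Group F] [MulAction F V] (r g : F) (p : V)
    (h : r⁻¹ • p = g⁻¹ • p) : (r * g⁻¹) • p = p := by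
  rw [mul_smul, ← h, smul_inv_smul]

/-- Infinitely many powers are not in finitely many cosets. -/
theorem powers_contra {F : Type} [Group F] {c : F} (S : GTree F) (a b : S.V) {d : ℕ} {w : F}
    (hK : ∀ g : F, g ∈ Subgroup.zpowers (w ^ d) → g • a = a ∧ g • b = b)
    (hc : ∀ n : ℤ, n ≠ 0 → ∀ v : S.V, (c ^ n) • v ≠ v) (P : F → Prop) (N : ℕ)
    (hP : ∀ n : ℕ, N ≤ n → P (c ^ n)) (D : Set F) (hD : D.Finite)
    (h : ∀ g, P g → ∃ k : ℤ, (w ^ d) ^ k * g ∈ D) : False := by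
  choose! κ hκ using h
  have hinj : Function.Injective (fun n : ℕ => (w ^ d) ^ κ (c ^ (n + N)) * c ^ (n + N)) := by
    intro n m hnm
    simp only at hnm
    by_contra hne
    have h1 : c ^ (((n + N : ℕ) : ℤ) - ((m + N : ℕ) : ℤ)) =
        (w ^ d) ^ (κ (c ^ (m + N)) - κ (c ^ (n + N))) := by
      rw [zpow_sub, zpow_sub, zpow_natCast, zpow_natCast]
      have h2 : c ^ (n + N) = ((w ^ d) ^ κ (c ^ (n + N)))⁻¹ *
          ((w ^ d) ^ κ (c ^ (m + N)) * c ^ (m + N)) := by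
        rw [← hnm]
        group
      have h3 : ∀ x y z t : F, Commute x y → z = x⁻¹ * (y * t) → z * t⁻¹ = y * x⁻¹ := by
        intro x y z t hxy hz
        rw [hz, mul_assoc, mul_assoc, mul_inv_cancel, mul_one]
        exact (hxy.inv_left).eq
      refine h3 _ _ _ _ ?_ h2
      exact (Commute.refl (w ^ d)).zpow_zpow _ _
    have h4 : (c ^ (((n + N : ℕ) : ℤ) - ((m + N : ℕ) : ℤ))) • a = a := by
      rw [h1]
      exact (hK _ (Subgroup.mem_zpowers_iff.2 ⟨_, rfl⟩)).1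
    exact hc _ (by omega) a h4
  exact (Set.infinite_of_injective_forall_mem hinj
    (fun n => hκ _ (hP (n + N) (Nat.le_add_left _ _)))) hD

theorem core (TA : T_TA) (TP : T_TP) (CL : T_CL) (ML : T_ML) (MA : T_MA)
    (MC : T_MC) (SA : T_SA) (SB : T_SB) (SC : T_SC) (X : Type) [Finite X] [Nontrivial X]
    (w : FreeGroup X) (S : GTree (FreeGroup X)) (hR : Root w) (hW : Wh w) (s : S.V)
    (hs : w • s = s) (a b : S.V) (h : FreeGroup X) (hax : S.Axis h a b)
    (hK : ∀ g : FreeGroup X, g • a = a → g • b = b → g ∈ Subgroup.zpowers w) : False := by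
  obtain ⟨L, lt, u, hL, hWG⟩ := hW
  obtain ⟨-, -, hinj, hper, -⟩ := CL X w L lt u hL
  obtain ⟨-, -, TA3, TA4, TA5, -⟩ := TA (FreeGroup X) S
  have hadj : S.T.Adj a b := hax.1
  -- `w` has infinite order
  have hw : ∀ k : ℤ, k ≠ 0 → w ^ k ≠ 1 := by
    intro k hk h1
    have h2 := hper 0 k
    rw [h1, one_mul] at h2
    have h3 := hinj h2
    have h4 : (L : ℤ) * k = 0 := by omega
    rcases mul_eq_zero.1 h4 with h5 | h5
    · have := hL.pos
      omega
    · exact hk h5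
  -- the stabiliser of the edge
  obtain ⟨K, hKd⟩ : ∃ K : Subgroup (FreeGroup X), ∀ g, g ∈ K ↔ g • a = a ∧ g • b = b := by
    refine ⟨MulAction.stabilizer (FreeGroup X) a ⊓ MulAction.stabilizer (FreeGroup X) b, ?_⟩
    intro g
    rw [Subgroup.mem_inf, MulAction.mem_stabilizer_iff, MulAction.mem_stabilizer_iff]
  obtain ⟨d, hd⟩ := exists_pow w K (fun g hg => hK g ((hKd g).1 hg).1 ((hKd g).1 hg).2)
  have hKd' : ∀ g : FreeGroup X, (g • a = a ∧ g • b = b) ↔ g ∈ Subgroup.zpowers (w ^ d) := by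
    intro g
    rw [← hKd, hd]
  have hne : ∀ n : ℤ, n ≠ 0 → ∀ v : S.V, (h ^ n) • v ≠ v := (TP (FreeGroup X) S h a b).2 hax
  have hne' : ∀ n : ℤ, n ≠ 0 → ∀ v : S.V, (h⁻¹ ^ n) • v ≠ v := by
    intro n hn v hv
    rw [inv_zpow', ← neg_neg n, neg_neg] at hv
    exact hne (-n) (by omega) v hv
  obtain ⟨N, hN⟩ := hax.2 a
  obtain ⟨U, hU⟩ : ∃ U : FreeGroup X → Bool, U = fun g => decide (g • a ∈ S.hs a b) := ⟨_, rfl⟩
  have hUf : ∀ n : ℕ, N ≤ n → U (h ^ n) = false := by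
    intro n hn
    rw [hU]
    simp only [decide_eq_false_iff_not]
    intro h1
    exact (TA4 a b hadj _).2 ⟨h1, (hN n hn).1⟩
  have hUt : ∀ n : ℕ, N ≤ n → U (h⁻¹ ^ n) = true := by
    intro n hn
    rw [hU]
    simp only [decide_eq_true_eq]
    exact (hN n hn).2
  -- the representatives of the changes of colour
  have hchg : ∃ D : Set (FreeGroup X), D.Finite ∧ ∀ g y, U g ≠ U (g * lw y) →
      ∃ k : ℤ, (w ^ d) ^ k * g ∈ D := by
    obtain ⟨E, hE, hE2⟩ := SA X S a b a hadj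
    obtain ⟨ρ, hρ⟩ : ∃ ρ : S.V × S.V → FreeGroup X, ∀ g : FreeGroup X,
        (ρ (g⁻¹ • a, g⁻¹ • b))⁻¹ • a = g⁻¹ • a ∧ (ρ (g⁻¹ • a, g⁻¹ • b))⁻¹ • b = g⁻¹ • b := by
      refine ⟨fun e => if h : ∃ g : FreeGroup X, g⁻¹ • a = e.1 ∧ g⁻¹ • b = e.2 then h.choose
        else 1, ?_⟩
      intro g
      have h1 : ∃ g' : FreeGroup X, g'⁻¹ • a = g⁻¹ • a ∧ g'⁻¹ • b = g⁻¹ • b := ⟨g, rfl, rfl⟩
      simp only [dif_pos h1]
      exact h1.choose_spec
    refine ⟨ρ '' E, hE.image ρ, ?_⟩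
    intro g y hgy
    have h1 : (g⁻¹ • a, g⁻¹ • b) ∈ E := by
      apply hE2 g y
      intro h2
      apply hgy
      rw [hU]
      simp only [h2]
    obtain ⟨h3, h4⟩ := hρ g
    have h5 : ρ (g⁻¹ • a, g⁻¹ • b) * g⁻¹ ∈ Subgroup.zpowers (w ^ d) := by
      rw [← hKd']
      exact ⟨aux _ _ _ h3, aux _ _ _ h4⟩
    obtain ⟨k, hk⟩ := Subgroup.mem_zpowers_iff.1 h5
    refine ⟨k, (g⁻¹ • a, g⁻¹ • b), h1, ?_⟩
    rw [hk]
    group
  by_cases hd0 : d = 0
  · -- trivial stabiliser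
    have htriv : ∀ g : FreeGroup X, g • a = a → g • b = b → g = 1 := by
      intro g h1 h2
      have h3 := (hKd' g).1 ⟨h1, h2⟩
      rw [hd0, pow_zero] at h3
      obtain ⟨k, hk⟩ := Subgroup.mem_zpowers_iff.1 h3
      rw [← hk, one_zpow]
    have hcol : ∀ g, ∃ c, Col U u g c := by
      intro g
      refine ⟨_, hU ▸ SB X S w L lt u a b a s 1 g hL hadj Nat.one_pos (by rw [pow_one]; exact hs)
        ?_⟩
      rintro k hk ⟨h1, h2⟩
      have h3 := htriv _ h1 h2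
      apply hw k hk
      have h4 : w ^ k = g⁻¹ * (g * w ^ k * g⁻¹) * g := by group
      rw [h4, h3]
      group
    obtain ⟨D, hD, hD2⟩ := hchg
    obtain ⟨c, hc⟩ := MA X w L lt u hL hWG U hcol (hD.subset (by
      rintro g ⟨y, hy⟩
      obtain ⟨k, hk⟩ := hD2 g y hy
      rw [hd0, pow_zero, one_zpow, one_mul] at hk
      exact hk))
    have hcon : ∀ e : FreeGroup X, (∀ n : ℤ, n ≠ 0 → ∀ v : S.V, (e ^ n) • v ≠ v) →
        (∀ n : ℕ, N ≤ n → U (e ^ n) ≠ c) → False := by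
      intro e he1 he2
      refine powers_contra (w := w) (d := d) S a b (fun g hg => (hKd' g).2 hg) he1
        (fun g => U g ≠ c) N he2 {g | U g ≠ c} hc ?_
      intro g hg
      exact ⟨0, by rw [zpow_zero, one_mul]; exact hg⟩
    cases c with
    | true =>
      refine hcon h hne ?_
      intro n hn
      rw [hUf n hn]
      decide
    | false =>
      refine hcon h⁻¹ hne' ?_
      intro n hn
      rw [hUt n hn]
      decide
  · have hdpos : 0 < d := Nat.pos_of_ne_zero hd0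
    have hwd : (w ^ d) • a = a ∧ (w ^ d) • b = b := (hKd' _).2 (Subgroup.mem_zpowers _)
    have hUw : ∀ g, U (w ^ d * g) = U g := by
      intro g
      have h1 := TA3 (w ^ d) a b (g • a)
      rw [hwd.1, hwd.2, ← mul_smul] at h1
      rw [hU]
      simp only [h1]
    have hcol : ∀ g, g ∉ Subgroup.zpowers w → ∃ c, Col U u g c := by
      intro g hg
      refine ⟨_, hU ▸ SB X S w L lt u a b a s 1 g hL hadj Nat.one_pos (by rw [pow_one]; exact hs)
        ?_⟩
      rintro k hk ⟨h1, h2⟩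
      apply hg
      obtain ⟨n, hn⟩ := Subgroup.mem_zpowers_iff.1 (hK _ h1 h2)
      exact ML X w g k n hR hk hn.symm
    obtain ⟨c, i0, hc⟩ := SC X S w L lt u a b a d hL hR hadj hdpos hKd'
    rw [← hU] at hc
    obtain ⟨D, hD, hD2⟩ := MC X w L lt u hL hWG U c d i0 hdpos hUw hchg hcol hc
    have hcon : ∀ e : FreeGroup X, (∀ n : ℤ, n ≠ 0 → ∀ v : S.V, (e ^ n) • v ≠ v) →
        (∀ n : ℕ, N ≤ n → U (e ^ n) ≠ c) → False := by
      intro e he1 he2
      exact powers_contra (w := w) (d := d) S a b (fun g hg => (hKd' g).2 hg) he1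
        (fun g => U g ≠ c) N he2 D hD hD2
    cases c with
    | true =>
      refine hcon h hne ?_
      intro n hn
      rw [hUf n hn]
      decide
    | false =>
      refine hcon h⁻¹ hne' ?_
      intro n hn
      rw [hUt n hn]
      decide

theorem pf_LS (TA : T_TA) (TP : T_TP) (TH : T_TH) (TS : T_TS) (CL : T_CL) (ML : T_ML)
    (MA : T_MA) (MC : T_MC) (SA : T_SA) (SB : T_SB) (SC : T_SC) : T_LS := by
  intro X _ _ w S hR hW hfix hst
  by_contra hno
  obtain ⟨s, hs⟩ := hfix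
  have h1 : ∃ h : FreeGroup X, ∀ v : S.V, h • v ≠ v := by
    by_contra hcon
    push Not at hcon
    exact hno (TS (FreeGroup X) S inferInstance hcon)
  obtain ⟨h, hh⟩ := h1
  obtain ⟨a, b, hax⟩ := TH (FreeGroup X) S h hh
  obtain ⟨x, hx⟩ := hst a b hax.1
  obtain ⟨-, TA2, TA3, -⟩ := TA (FreeGroup X) S
  refine core TA TP CL ML MA MC SA SB SC X w S hR hW s hs (x⁻¹ • a) (x⁻¹ • b) (x⁻¹ * h * x)
    ⟨(TA2 x⁻¹ a b).2 hax.1, ?_⟩ ?_
  · intro v
    obtain ⟨N, hN⟩ := hax.2 (x • v)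
    refine ⟨N, fun n hn => ?_⟩
    obtain ⟨h2, h3⟩ := hN n hn
    have e1 : (x⁻¹ * h * x) ^ n = x⁻¹ * h ^ n * x := by
      have := conj_pow (a := x⁻¹) (b := h) (i := n)
      rw [inv_inv] at this
      exact this
    have e2 : (x⁻¹ * h * x)⁻¹ ^ n = x⁻¹ * h⁻¹ ^ n * x := by
      have e3 : (x⁻¹ * h * x)⁻¹ = x⁻¹ * h⁻¹ * x := by group
      have := conj_pow (a := x⁻¹) (b := h⁻¹) (i := n)
      rw [inv_inv] at this
      rw [e3]
      exact this
    constructor
    · rw [e1, mul_smul, mul_smul, TA3]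
      exact h2
    · rw [e2, mul_smul, mul_smul, TA3]
      exact h3
  · intro g h2 h3
    have h4 : (x * g * x⁻¹) • a = a := by
      rw [mul_smul, mul_smul, h2, smul_inv_smul]
    have h5 : (x * g * x⁻¹) • b = b := by
      rw [mul_smul, mul_smul, h3, smul_inv_smul]
    have h6 := hx _ h4 h5
    have h7 : x⁻¹ * (x * g * x⁻¹) * x = g := by group
    rw [h7] at h6
    exact h6

end Pool.Agent.H39.OR.LS
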