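import Pool.Agent.H5.OR.Targets

/-!
# Isomorphism problem for one-relator groups: half trees with finitely many changes of colour
-/

set_option autoImplicit false

open scoped Classical

namespace Pool.Agent.H39.OR

open ORg

variable {X : Type}

theorem nv_ne (x : X × Bool) : x ≠ nv x := by
  intro h
  have h1 : x.2 = !x.2 := congrArg Prod.snd h
  cases h2 : x.2 <;> rw [h2] at h1 <;> exact absurd h1 (by decide)

theorem cn_sub (CA : T_CA) {v : FreeGroup X} {x y : X × Bool} (hy : y ≠ nv x) {g : FreeGroup X}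
    (hg : g ∈ Cn (v * lw x) y) : g ∈ Cn v x :=
  ((CA X v).2.2.2.1 g x).2 (Or.inr ⟨y, hy, hg⟩)

theorem const (CA : T_CA) (U : FreeGroup X → Bool) : ∀ (n : ℕ) (v : FreeGroup X) (x : X × Bool)
    (g : FreeGroup X), (∀ h ∈ Cn v x, ∀ y, h * lw y ∈ Cn v x → U h = U (h * lw y)) →
    g ∈ Cn v x → (v⁻¹ * g).norm ≤ n → U g = U (v * lw x) := by
  intro n
  induction n with
  | zero =>
    intro v x g _ hg hn
    have h1 : (v⁻¹ * g).norm = 0 := by omega
    rw [FreeGroup.norm_eq_zero] at h1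
    have h2 : g = v := (inv_mul_eq_one.1 h1).symm
    rw [h2] at hg
    exact absurd hg ((CA X v).2.1 x)
  | succ n ih =>
    intro v x g hc hg hn
    rcases ((CA X v).2.2.2.1 g x).1 hg with h | ⟨y, hy, h⟩
    · rw [h]
    · have h1 := ih (v * lw x) y g
        (fun h' hh' y' hy' => hc h' (cn_sub CA hy hh') y' (cn_sub CA hy hy')) h
        (by
          have := (CA X v).2.2.2.2.2.2 g x y hy h
          omega)
      have hp : v * lw x ∈ Cn v x := ((CA X v).2.2.2.1 _ x).2 (Or.inl rfl)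
      have hq : v * lw x * lw y ∈ Cn (v * lw x) y :=
        ((CA X (v * lw x)).2.2.2.1 _ y).2 (Or.inl rfl)
      rw [h1, hc _ hp y (cn_sub CA hy hq)]

theorem col_eq {U : FreeGroup X → Bool} {u : ℤ → FreeGroup X} (hu : Function.Injective u)
    {g : FreeGroup X} {c c' : Bool} (hc : Col U u g c) {S : Set (FreeGroup X)} (σ : ℕ → ℤ)
    (hσ : Function.Injective σ) (K : ℤ) (hK : ∀ n : ℕ, (n : ℤ) ≤ |σ n| + K)
    (hS : ∀ n, g * u (σ n) ∈ S) (hfin : {h | h ∈ S ∧ U h ≠ c'}.Finite) : c = c' := by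
  by_contra hne
  obtain ⟨N, hN⟩ := hc
  have hinf : {h | h ∈ S ∧ U h ≠ c'}.Infinite := by
    refine Set.infinite_of_injective_forall_mem
      (f := fun n : ℕ => g * u (σ (n + (N + K.natAbs)))) ?_ ?_
    · intro a b hab
      have h1 := mul_left_cancel hab
      have h2 := hσ (hu h1)
      omega
    · intro n
      refine ⟨hS _, ?_⟩
      have h3 : (N : ℤ) ≤ |σ (n + (N + K.natAbs))| := by
        have := hK (n + (N + K.natAbs))
        push_cast at this
        have h4 := le_abs_self K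
        omega
      show U (g * u (σ (n + (N + K.natAbs)))) ≠ c'
      rw [hN _ h3]
      exact hne
  exact hinf hfin

theorem edge_eq (CA : T_CA) (CL : T_CL) {w : FreeGroup X} {L : ℕ} {lt : ℤ → X × Bool}
    {u : ℤ → FreeGroup X} (hL : Ln w L lt u) {U : FreeGroup X → Bool} {p : FreeGroup X}
    {c₁ c₂ : Bool} (i : ℤ) (hcol : ∃ c, Col U u (p * (u i)⁻¹) c)
    (h1 : {h | h ∈ Cn p (nv (lt (i - 1))) ∧ U h ≠ c₁}.Finite)
    (h2 : {h | h ∈ Cn p (lt i) ∧ U h ≠ c₂}.Finite) : c₁ = c₂ := by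
  obtain ⟨hA, hB, hinj, -⟩ := CL X w L lt u hL
  obtain ⟨c, hc⟩ := hcol
  have hp : p * (u i)⁻¹ * u i = p := by group
  have e1 : c = c₁ := by
    refine col_eq hinj hc (S := Cn p (nv (lt (i - 1)))) (fun n => i - 1 - n) ?_ |i| ?_ ?_ h1
    · intro a b hab
      simp only at hab
      omega
    · intro n
      rcases abs_cases (i - 1 - (n : ℤ)) with h | h <;> rcases abs_cases i with h' | h' <;> omega
    · intro n
      have h3 := ((CA X (u i)).2.2.2.2.1 (p * (u i)⁻¹) (u (i - 1 - n)) (nv (lt (i - 1)))).2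
        (hB i (i - 1 - n) (by omega))
      rw [hp] at h3
      exact h3
  have e2 : c = c₂ := by
    refine col_eq hinj hc (S := Cn p (lt i)) (fun n => i + 1 + n) ?_ |i| ?_ ?_ h2
    · intro a b hab
      simp only at hab
      omega
    · intro n
      rcases abs_cases (i + 1 + (n : ℤ)) with h | h <;> rcases abs_cases i with h' | h' <;> omega
    · intro n
      have h3 := ((CA X (u i)).2.2.2.2.1 (p * (u i)⁻¹) (u (i + 1 + n)) (lt i)).2
        (hA i (i + 1 + n) (by omega))
      rw [hp] at h3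
      exact h3
  rw [← e1, e2]

theorem step (CA : T_CA) (CL : T_CL) [Finite X] {w : FreeGroup X} {L : ℕ} {lt : ℤ → X × Bool}
    {u : ℤ → FreeGroup X} (hL : Ln w L lt u) (hW : WhG lt) (U : FreeGroup X → Bool) :
    ∀ (R : ℕ) (v : FreeGroup X) (x : X × Bool), (∀ g i, g * u i ∈ Cn v x → ∃ c, Col U u g c) →
    (∀ g ∈ Cn v x, ∀ y, g * lw y ∈ Cn v x → U g ≠ U (g * lw y) → (v⁻¹ * g).norm < R) →
    ∃ c, {g | g ∈ Cn v x ∧ U g ≠ c}.Finite := by
  intro R
  induction R with
  | zero =>
    intro v x _ hR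
    refine ⟨U (v * lw x), ?_⟩
    have h1 : {g | g ∈ Cn v x ∧ U g ≠ U (v * lw x)} = ∅ := by
      rw [Set.eq_empty_iff_forall_notMem]
      rintro g ⟨hg, hne⟩
      apply hne
      refine const CA U _ v x g ?_ hg le_rfl
      intro h hh y hy
      by_contra hcon
      exact absurd (hR h hh y hy hcon) (by omega)
    rw [h1]
    exact Set.finite_empty
  | succ R ih =>
    intro v x hcol hR
    have hy : ∀ y : X × Bool, y ≠ nv x → ∃ c, {g | g ∈ Cn (v * lw x) y ∧ U g ≠ c}.Finite := by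
      intro y hy
      refine ih (v * lw x) y (fun g i hg => hcol g i (cn_sub CA hy hg)) ?_
      intro g hg y' hy' hne
      have h1 := hR g (cn_sub CA hy hg) y' (cn_sub CA hy hy') hne
      have h2 := (CA X v).2.2.2.2.2.2 g x y hy hg
      omega
    obtain ⟨cf, hcf⟩ : ∃ cf : X × Bool → Bool, ∀ y, y ≠ nv x →
        {g | g ∈ Cn (v * lw x) y ∧ U g ≠ cf y}.Finite := by
      refine ⟨fun y => if h : y ≠ nv x then (hy y h).choose else false, ?_⟩
      intro y h
      simp only [dif_pos h]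
      exact (hy y h).choose_spec
    have hp : v * lw x ∈ Cn v x := ((CA X v).2.2.2.1 _ x).2 (Or.inl rfl)
    have hcc : ∀ i : ℤ, ∃ c, Col U u (v * lw x * (u i)⁻¹) c := by
      intro i
      refine hcol _ i ?_
      have : v * lw x * (u i)⁻¹ * u i = v * lw x := by group
      rw [this]
      exact hp
    have hedge : ∀ s t : X × Bool, (s ≠ nv x ∧ t ≠ nv x ∧
        ∃ i, (s = nv (lt (i - 1)) ∧ t = lt i) ∨ (t = nv (lt (i - 1)) ∧ s = lt i)) →
        cf s = cf t := by
      rintro s t ⟨hs, ht, i, ⟨h1, h2⟩ | ⟨h1, h2⟩⟩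
      · refine edge_eq CA CL hL i (hcc i) ?_ ?_
        · rw [← h1]
          exact hcf s hs
        · rw [← h2]
          exact hcf t ht
      · refine (edge_eq CA CL hL i (hcc i) ?_ ?_).symm
        · rw [← h1]
          exact hcf t ht
        · rw [← h2]
          exact hcf s hs
    have hall : ∀ y : X × Bool, y ≠ nv x → cf x = cf y := by
      intro y hy
      have h1 := hW (nv x) x y (nv_ne x) hy
      induction h1 with
      | refl => rfl
      | tail _ hbc ih' => exact (ih' hbc.1).trans (hedge _ _ hbc)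
    refine ⟨cf x, ?_⟩
    have hfin : (⋃ y : X × Bool, {g | y ≠ nv x ∧ g ∈ Cn (v * lw x) y ∧ U g ≠ cf y}).Finite := by
      refine Set.finite_iUnion fun y => ?_
      by_cases h : y ≠ nv x
      · exact (hcf y h).subset fun g hg => hg.2
      · have h1 : {g | y ≠ nv x ∧ g ∈ Cn (v * lw x) y ∧ U g ≠ cf y} = ∅ := by
          rw [Set.eq_empty_iff_forall_notMem]
          rintro g ⟨h2, -⟩
          exact h h2
        rw [h1]
        exact Set.finite_empty
    refine ((Set.finite_singleton (v * lw x)).union hfin).subset ?_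
    rintro g ⟨hg, hne⟩
    rcases ((CA X v).2.2.2.1 g x).1 hg with h | ⟨y, hy, h⟩
    · exact Or.inl h
    · right
      rw [Set.mem_iUnion]
      exact ⟨y, hy, h, by rw [← hall y hy]; exact hne⟩

theorem pf_MM (CA : T_CA) (CL : T_CL) : T_MM := by
  intro X _ w L lt u hL hW U v x hcol hfin
  have hb := (hfin.image (fun g => (v⁻¹ * g).norm)).bddAbove
  obtain ⟨M, hM⟩ := hb
  refine step CA CL hL hW U (M + 1) v x hcol ?_
  intro g hg y hy hne
  have h1 : (v⁻¹ * g).norm ≤ M := hM ⟨g, ⟨hg, y, hy, hne⟩, rfl⟩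
  omega

end Pool.Agent.H39.OR
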