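import Pool.Agent.H5.OR.Targets3
import Pool.Agent.H5.OR.Gen.F5

/-!
# Row M9 of board ors_modules: the core of the theorem on several words
-/

set_option autoImplicit false

open scoped Classical

namespace Pool.Agent.H39.OR

open ORg ORh.F4f ORh.F5f

private theorem pow_of {X : Type} [Subsingleton X] (x : X) (y : FreeGroup X) :
    ∃ n : ℤ, y = FreeGroup.of x ^ n := by
  refine FreeGroup.induction_on (C := fun y => ∃ n : ℤ, y = FreeGroup.of x ^ n) y ?_ ?_ ?_ ?_
  · exact ⟨0, by simp⟩
  · intro z
    exact ⟨1, by rw [Subsingleton.elim z x, zpow_one]⟩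
  · intro z h
    refine ⟨-1, ?_⟩
    rw [Subsingleton.elim z x, zpow_neg, zpow_one]
  · rintro y z ⟨m, hm⟩ ⟨n, hn⟩
    exact ⟨m + n, by rw [hm, hn, zpow_add]⟩

private theorem pow_root {X : Type} [Subsingleton X] {w : FreeGroup X} (hw : Root w)
    (y : FreeGroup X) : ∃ n : ℤ, y = w ^ n := by
  have hne : w ≠ 1 := ne_one_of_root hw
  have hx : Nonempty X := by
    by_contra hn
    have hE : IsEmpty X := not_nonempty_iff.1 hn
    exact hne (Subsingleton.elim _ _)
  obtain ⟨x⟩ := hx
  obtain ⟨k, hk⟩ := pow_of x w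
  obtain ⟨n, hn⟩ := pow_of x y
  rcases hw (FreeGroup.of x) k hk.symm with h | h
  · exact ⟨n, by rw [hn, hk, h, zpow_one]⟩
  · refine ⟨-n, ?_⟩
    rw [hn, hk, h, ← zpow_mul]
    congr 1
    ring

private theorem sub_range {I : Type} {X Z : I → Type} {P G : Type} [Group P] [Group G]
    {w : ∀ i, FreeGroup (X i)} {a : I → P} {iF : ∀ i, FreeGroup (X i ⊕ Z i) →* G} {iP : P →* G}
    {S : GTree G} {r : S.V} {b : I → S.V} (h : Sx w a iF iP S r b) (i : I)
    (hi : ¬ Nontrivial (X i)) (y : FreeGroup (X i)) : iF i (fl y) ∈ iP.range := by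
  have hs : Subsingleton (X i) := not_nontrivial_iff_subsingleton.1 hi
  obtain ⟨n, hn⟩ := pow_root (h.hy.root i) y
  refine ⟨a i ^ n, ?_⟩
  rw [hn, map_zpow, map_zpow, map_zpow, h.eq]

theorem pf_M9 (M1 : T_M1) (M7 : T_M7) (M8 : T_M8) : T_M9 := by
  intro I X Z P G _ _ w a iF iP I' X' Z' P' G' _ _ w' a' iF' iP' hy hy' hG
  obtain ⟨S, r, b, h⟩ := M1 I X Z P G w a iF iP hy
  obtain ⟨S', r', b', h'⟩ := M1 I' X' Z' P' G' w' a' iF' iP' hy'
  obtain ⟨φ, σ, hP, hF⟩ := M7 I X Z P G w a iF iP S r b I' X' Z' P' G' w' a' iF' iP' S' r' b'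
    h h' hG
  obtain ⟨β, hβ⟩ := exists_equiv _ _ h.injP h'.injP φ hP
  constructor
  · obtain ⟨e1⟩ := M8 I X Z P G w a iF iP hy.st
    obtain ⟨e2⟩ := M8 I' X' Z' P' G' w' a' iF' iP' hy'.st
    have hmap : (Subgroup.normalClosure ((iP.range : Set G) ∪
        ⋃ i, (((iF i).comp fl).range : Set G))).map φ.toMonoidHom =
        Subgroup.normalClosure ((iP'.range : Set G') ∪
        ⋃ i, (((iF' i).comp fl).range : Set G')) := by
      rw [Subgroup.map_normalClosure _ _ φ.surjective]
      apply le_antisymm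
      · apply Subgroup.normalClosure_le_normal
        rintro y ⟨x, hx, rfl⟩
        have hPx : ∀ x : G, x ∈ iP.range → φ x ∈ Subgroup.normalClosure ((iP'.range : Set G') ∪
            ⋃ i, (((iF' i).comp fl).range : Set G')) := fun x hx =>
          Subgroup.subset_normalClosure (Or.inl ((hP x).1 hx))
        rcases hx with hx | hx
        · exact hPx x hx
        · obtain ⟨i, hi⟩ := Set.mem_iUnion.1 hx
          by_cases hn : Nontrivial (X i)
          · obtain ⟨p, hp, hpF⟩ := hF ⟨i, hn⟩
            have h1 := (hpF x).1 hi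
            have h2 : p * φ x * p⁻¹ ∈ Subgroup.normalClosure ((iP'.range : Set G') ∪
                ⋃ i, (((iF' i).comp fl).range : Set G')) :=
              Subgroup.subset_normalClosure (Or.inr (Set.mem_iUnion.2 ⟨_, h1⟩))
            have h3 := Subgroup.normalClosure_normal.conj_mem _ h2 p⁻¹
            have h4 : p⁻¹ * (p * φ x * p⁻¹) * p⁻¹⁻¹ = φ x := by group
            rw [h4] at h3
            exact h3
          · obtain ⟨y, rfl⟩ := hi
            exact hPx _ (sub_range h i hn y)
      · apply Subgroup.normalClosure_le_normal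
        have hPy : ∀ y : G', y ∈ iP'.range → y ∈ Subgroup.normalClosure
            (φ.toMonoidHom '' ((iP.range : Set G) ∪
              ⋃ i, (((iF i).comp fl).range : Set G))) := by
          intro y hy
          apply Subgroup.subset_normalClosure
          refine ⟨φ.symm y, Or.inl ?_, by simp⟩
          have h1 : φ.symm y ∈ iP.range := by
            rw [hP]
            simpa using hy
          exact h1
        rintro y (hy | hy)
        · exact hPy y hy
        · obtain ⟨j, hj⟩ := Set.mem_iUnion.1 hy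
          by_cases hn : Nontrivial (X' j)
          · obtain ⟨i, hi⟩ := σ.surjective ⟨j, hn⟩
            obtain ⟨p, hp, hpF⟩ := hF i
            rw [hi] at hpF
            have h0 : p * φ (φ.symm (p⁻¹ * y * p)) * p⁻¹ = y := by
              rw [MulEquiv.apply_symm_apply]
              group
            have h1 : φ.symm (p⁻¹ * y * p) ∈ ((iF i).comp fl).range := by
              rw [hpF, h0]
              exact hj
            have h2 : φ (φ.symm (p⁻¹ * y * p)) ∈ Subgroup.normalClosure
                (φ.toMonoidHom '' ((iP.range : Set G) ∪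
                  ⋃ i, (((iF i).comp fl).range : Set G))) :=
              Subgroup.subset_normalClosure ⟨_, Or.inr (Set.mem_iUnion.2 ⟨_, h1⟩), rfl⟩
            have h3 := Subgroup.normalClosure_normal.conj_mem _ h2 p
            rw [h0] at h3
            exact h3
          · obtain ⟨z, rfl⟩ := hj
            exact hPy _ (sub_range h' j hn z)
    exact ⟨e1.symm.trans ((QuotientGroup.congr _ _ φ hmap).trans e2)⟩
  · refine ⟨σ, β, fun i => ?_⟩
    obtain ⟨p, hp, hpF⟩ := hF i
    obtain ⟨q, rfl⟩ := hp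
    have hi1 : Function.Injective ((iF i).comp
        (fl : FreeGroup (X i) →* FreeGroup (X i ⊕ Z i))) := (h.injF i).comp fl_inj
    have hi2 : Function.Injective ((iF' (σ i)).comp
        (fl : FreeGroup (X' (σ i)) →* FreeGroup (X' (σ i) ⊕ Z' (σ i)))) :=
      (h'.injF (σ i)).comp fl_inj
    obtain ⟨α, hα⟩ := exists_equiv _ _ hi1 hi2 (φ.trans (MulAut.conj (iP' q))) hpF
    have h1 : iF' (σ i) (fl (α (w i))) = iP' (q * β (a i) * q⁻¹) := by
      have h2 := hα (w i)
      rw [MonoidHom.comp_apply, MonoidHom.comp_apply, h.eq] at h2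
      rw [h2, map_mul, map_mul, map_inv, hβ]
      rfl
    obtain ⟨k, hk1, hk2⟩ := h'.inter _ _ _ h1
    have h3 : α (w i) = w' (σ i) ^ k := by
      apply fl_inj (X2 := Z' (σ i))
      rw [hk1, map_zpow]
    have h4 : (α.symm (w' (σ i))) ^ k = w i := by
      rw [← map_zpow, ← h3, MulEquiv.symm_apply_apply]
    refine ⟨α, q⁻¹, ?_⟩
    rcases hy.root i _ _ h4 with rfl | rfl
    · left
      refine ⟨by rw [h3, zpow_one], ?_⟩
      rw [zpow_one] at hk2
      rw [← hk2]
      group
    · right
      refine ⟨by rw [h3, zpow_neg, zpow_one], ?_⟩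
      rw [zpow_neg, zpow_one] at hk2
      rw [← hk2]
      group

end Pool.Agent.H39.OR
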